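import Mathlib

set_option autoImplicit false

/-!
# Unit tasks, restricted assignment, reassignments: the model of MP_4bcfd7_lc

Definitions only (the definitions of the starting file `NoConstantReassign`).
-/

namespace Pool.Agent.Y633.RA

/-- An event on `n` machines (the elements of `Fin n`): the arrival of a new unit task, named by
the natural number `j`, with its set `M` of eligible machines, or the departure of task `j`. -/
inductive Event (n : ℕ) where
  | arrive (j : ℕ) (M : Finset (Fin n))
  | depart (j : ℕ)

/-- The set of tasks that are active after the events of `h` (listed in chronological order). -/
def active {n : ℕ} (h : List (Event n)) : Finset ℕ :=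
  h.foldl (fun S e => match e with
    | .arrive j _ => insert j S
    | .depart j => S.erase j) ∅

/-- Event sequences (chronological): every arriving task is new and has a nonempty set of eligible
machines, and every departing task is active when it departs. -/
inductive IsSequence {n : ℕ} : List (Event n) → Prop
  | nil : IsSequence []
  | arrive (σ : List (Event n)) (j : ℕ) (M : Finset (Fin n)) (hσ : IsSequence σ)
      (hnew : ∀ M', Event.arrive j M' ∉ σ) (hM : M.Nonempty) : IsSequence (σ ++ [.arrive j M])
  | depart (σ : List (Event n)) (j : ℕ) (hσ : IsSequence σ) (hj : j ∈ active σ) :
      IsSequence (σ ++ [.depart j])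

/-- Machine `i` is eligible for task `j`, which arrived during `h`. -/
def Eligible {n : ℕ} (h : List (Event n)) (j : ℕ) (i : Fin n) : Prop :=
  ∃ M, Event.arrive j M ∈ h ∧ i ∈ M

/-- A configuration: the machine on which each task sits (`none`: on no machine). -/
abbrev Config (n : ℕ) := ℕ → Option (Fin n)

/-- After the events of `h`, the configuration `c` has every active task on one of its eligible
machines. -/
def Feasible {n : ℕ} (h : List (Event n)) (c : Config n) : Prop :=
  ∀ j ∈ active h, ∃ i, c j = some i ∧ Eligible h j i

/-- The load of machine `i`: the number of active tasks sitting on it. -/
def load {n : ℕ} (h : List (Event n)) (c : Config n) (i : Fin n) : ℕ :=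
  ((active h).filter fun j => c j = some i).card

/-- The least possible maximum load for the tasks active after the events of `h`. -/
noncomputable def optAt {n : ℕ} (h : List (Event n)) : ℕ :=
  sInf {L | ∃ c : Config n, Feasible h c ∧ ∀ i, load h c i ≤ L}

/-- The benchmark `OPT(σ)`: the maximum of `optAt` over all times. -/
noncomputable def OPT {n : ℕ} (σ : List (Event n)) : ℕ :=
  (Finset.range (σ.length + 1)).sup fun t => optAt (σ.take t)

/-- A response to one event: the machine on which the task is placed if the event is an arrival
(`place`, not used for a departure), then the reassignments performed before the next event, in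
this order; the entry `(j, i)` of `moves` reassigns task `j` to machine `i`. -/
structure Response (n : ℕ) where
  place : Option (Fin n)
  moves : List (ℕ × Fin n)

/-- The configuration just after an event, before any reassignment. -/
def afterEvent {n : ℕ} (c : Config n) (e : Option (Event n)) (r : Response n) : Config n :=
  match e with
  | some (.arrive j _) => Function.update c j r.place
  | some (.depart j) => Function.update c j none
  | none => c

/-- The configuration after a list of reassignments. -/
def afterMoves {n : ℕ} (c : Config n) (ms : List (ℕ × Fin n)) : Config n :=
  ms.foldl (fun c m => Function.update c m.1 (some m.2)) c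

/-- The configuration after the first `t` events of `σ` and all the reassignments in response to
them, when `r t` is the response to event number `t` (events are numbered from `0`). -/
def confAfter {n : ℕ} (σ : List (Event n)) (r : ℕ → Response n) : ℕ → Config n
  | 0 => fun _ => none
  | t + 1 => afterMoves (afterEvent (confAfter σ r t) σ[t]? (r t)) (r t).moves

/-- The configuration just after event number `t` and the first `m` reassignments of the response
to it. -/
def conf {n : ℕ} (σ : List (Event n)) (r : ℕ → Response n) (t m : ℕ) : Config n :=
  afterMoves (afterEvent (confAfter σ r t) σ[t]? (r t)) ((r t).moves.take m)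

/-- The responses `r` are legal on `σ`: only active tasks are reassigned, and at every moment every
active task sits on one of its eligible machines. -/
def Legal {n : ℕ} (σ : List (Event n)) (r : ℕ → Response n) : Prop :=
  ∀ t < σ.length, (∀ mv ∈ (r t).moves, mv.1 ∈ active (σ.take (t + 1))) ∧
    ∀ m ≤ (r t).moves.length, Feasible (σ.take (t + 1)) (conf σ r t m)

/-- The online cost `A(σ)`: the maximum load over all machines and all moments. -/
def cost {n : ℕ} (σ : List (Event n)) (r : ℕ → Response n) : ℕ :=
  (Finset.range σ.length).sup fun t => (Finset.range ((r t).moves.length + 1)).sup fun m =>
    Finset.univ.sup fun i => load (σ.take (t + 1)) (conf σ r t m) i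

/-- The total number of reassignments. -/
def reassignments {n : ℕ} (σ : List (Event n)) (r : ℕ → Response n) : ℕ :=
  ∑ t ∈ Finset.range σ.length, (r t).moves.length

/-- An online algorithm: its response to an event depends only on the number `n` of machines and
on the events revealed so far (the list ends with the event responded to). -/
abbrev OnlineAlgorithm := (n : ℕ) → List (Event n) → Response n

/-- The responses of an online algorithm on `σ`. -/
def OnlineAlgorithm.run (A : OnlineAlgorithm) {n : ℕ} (σ : List (Event n)) : ℕ → Response n :=
  fun t => A n (σ.take (t + 1))

end Pool.Agent.Y633.RA
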