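import Mathlib
import Pool.Agent.Helper995.Reassign.Main

set_option autoImplicit false

/-!
# Systems with many alternations and a bound for the number of machines

The construction is `exists_system` of the starting library `Helper995/Reassign`; new is the
bound for its size.
-/

namespace Pool.Agent.Y633.RA

open Pool.Agent.Helper995.Reassign

/-- The tower of `k` twos with `x` on top: `tow 0 x = x` and `tow (k + 1) x = 2 ^ tow k x`. -/
def tow : ℕ → ℕ → ℕ
  | 0, x => x
  | k + 1, x => 2 ^ tow k x

lemma two_mul_le_pow (a : ℕ) (ha : 1 ≤ a) : 2 * a ≤ 2 ^ a := by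
  induction a with
  | zero => omega
  | succ a ih =>
    rcases Nat.eq_zero_or_pos a with h | h
    · subst h; norm_num
    · have := ih h
      have h2 : 2 ≤ 2 ^ a := by
        calc 2 = 2 ^ 1 := rfl
          _ ≤ 2 ^ a := Nat.pow_le_pow_right (by norm_num) h
      rw [pow_succ]
      omega

lemma step_bound {m q T : ℕ} (hm : 1 ≤ m) (hq : 0 < q) (h : 2 * (m * q) ≤ T) :
    2 * (m * (2 ^ (m * q) * q)) ≤ 2 ^ T := by
  obtain ⟨a, ha⟩ : ∃ a, a = m * q := ⟨_, rfl⟩
  have ha1 : 1 ≤ a := by rw [ha]; exact Nat.mul_pos hm hq
  have e1 : 2 * (m * (2 ^ (m * q) * q)) = 2 * a * 2 ^ a := by rw [ha]; ring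
  rw [e1]
  calc 2 * a * 2 ^ a ≤ 2 ^ a * 2 ^ a := Nat.mul_le_mul_right _ (two_mul_le_pow a ha1)
    _ = 2 ^ (2 * a) := by rw [← pow_add]; congr 1; ring
    _ ≤ 2 ^ T := Nat.pow_le_pow_right (by norm_num) (by rw [ha]; exact h)

/-- The systems: `2q` machines, `mq` tasks, `2mq` events, `2Mq` pulses, at least `M` alternations
for each task; `2mq` is at most a tower of height `M`. -/
theorem exists_system' (m : ℕ) (hm : 1 ≤ m) (M : ℕ) :
    ∃ (V E : Type) (_ : Fintype V) (_ : Fintype E) (p : E → Bool → V) (l : List (Step V E))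
      (q : ℕ), 0 < q ∧ Fintype.card V = 2 * q ∧ Fintype.card E = m * q ∧
        pulses l = 2 * M * q ∧ events l = 2 * m * q ∧ Good p l ∧ (∀ e, Step.ins e ∈ l) ∧
        (∀ e, M ≤ alt p e l) ∧ 2 * (m * q) ≤ tow M (2 * m) := by
  classical
  induction M with
  | zero =>
    -- base: two machines and `m` tasks, each arriving and departing at once
    let p : Fin m → Bool → Bool := fun _ s => s
    have hbase : ∀ L : List (Fin m), L.Nodup → ∃ l : List (Step Bool (Fin m)),
        pulses l = 0 ∧ events l = 2 * L.length ∧ Good p l ∧ alive l = ∅ ∧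
        (∀ e, Step.ins e ∈ l ↔ e ∈ L) := by
      intro L
      induction L with
      | nil => exact fun _ => ⟨[], rfl, rfl, trivial, rfl, by simp⟩
      | cons e L ih =>
        intro hL
        rw [List.nodup_cons] at hL
        obtain ⟨l, h1, h2, h3, h4, h5⟩ := ih hL.2
        refine ⟨.del e :: .ins e :: l, ?_, ?_, ?_, ?_, ?_⟩
        · simpa [pulses] using h1
        · simp only [events, h2, List.length_cons]; ring
        · refine ⟨⟨h3, ?_, by simp [p], ?_, ?_⟩, ?_⟩
          · rw [h5]; exact hL.1
          · rw [h4]; exact Cert.empty _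
          · rw [h4]
            refine ⟨fun b => if b then 1 else 0, ?_, ?_, ?_⟩
            · intro e _; simp [p]
            · intro a ha s b hb s' _ _ _
              simp only [insert_empty_eq, Set.mem_singleton_iff] at ha hb
              rw [ha, hb]
            · intro a _ s hs
              exact absurd hs (by simp)
          · exact Set.mem_insert _ _
        · simp [alive, h4]
        · intro a
          simp only [List.mem_cons, reduceCtorEq, false_or, Step.ins.injEq, h5]
    obtain ⟨l, h1, h2, h3, h4, h5⟩ := hbase Finset.univ.toList (Finset.nodup_toList _)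
    refine ⟨Bool, Fin m, inferInstance, inferInstance, p, l, 1, one_pos, by simp, by simp,
      by simpa using h1, ?_, h3, ?_, fun _ => Nat.zero_le _, ?_⟩
    · rw [h2, Finset.length_toList]; simp
    · intro e
      rw [h5, Finset.mem_toList]
      exact Finset.mem_univ e
    · rw [Nat.mul_one]
      exact le_refl _
  | succ M ih =>
    obtain ⟨V, E, iV, iE, p, l, q, hq, hV, hE, hp, hev, hg, hin, halt, hT⟩ := ih
    have hcl : ∀ x : E → Bool, cluster l x = Finset.univ := by
      intro x
      ext y
      rw [mem_cluster]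
      simp [hin]
    have hcard : (Finset.univ : Finset (E → Bool)).card = 2 ^ Fintype.card E := by
      rw [Finset.card_univ, Fintype.card_fun, Fintype.card_bool]
    refine ⟨V × (E → Bool), E × (E → Bool), inferInstance, inferInstance, cp p,
      dbl l (fun _ => false), 2 ^ Fintype.card E * q, by positivity, ?_, ?_, ?_, ?_,
      good_dbl l hg _, ?_, ?_, ?_⟩
    · rw [Fintype.card_prod, hV, Fintype.card_fun, Fintype.card_bool]; ring
    · rw [Fintype.card_prod, Fintype.card_fun, Fintype.card_bool, hE]; ring
    · rw [pulses_dbl l hg, hcl, hcard, hV, hp]; ring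
    · rw [events_dbl l hg, hcl, hcard, hev]; ring
    · rintro ⟨e, y⟩
      rw [dbl_ins_mem l hg, hcl]
      exact ⟨hin e, Finset.mem_univ _⟩
    · rintro ⟨e, y⟩
      have := (alt_dbl l hg (fun _ => false) e (hin e) y (by rw [hcl]; exact Finset.mem_univ _)).1
      have h2 := halt e
      omega
    · rw [hE]
      exact step_bound hm hq hT

end Pool.Agent.Y633.RA
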