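import Mathlib
import Pool.Agent.Helper995.Reassign.Bound
import Pool.Agent.Y633.RA.Defs

set_option autoImplicit false

/-!
# Translation of the combinatorial systems into sequences of events

After the starting file `NoConstantReassign`; new: the machines of the system may be any of the
`n` machines (`κ` is only an injection), so that the bounds hold for every large `n`.
-/

namespace Pool.Agent.Y633.RA

open Pool.Agent.Helper995.Reassign

section Translate

variable {V E : Type} {n : ℕ}

/-- The event sequence of a process (processes list the newest step first). -/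
def evs (κ : V → Fin n) (ι : E → ℕ) (p : E → Bool → V) : List (Step V E) → List (Event n)
  | [] => []
  | .pulse _ :: l => evs κ ι p l
  | .ins e :: l => evs κ ι p l ++ [.arrive (ι e) {κ (p e false), κ (p e true)}]
  | .del e :: l => evs κ ι p l ++ [.depart (ι e)]

lemma length_evs (κ : V → Fin n) (ι : E → ℕ) (p : E → Bool → V) (l : List (Step V E)) :
    (evs κ ι p l).length = events l := by
  induction l with
  | nil => rfl
  | cons s l ih => cases s <;> simp [evs, events, ih]

lemma active_arrive (h : List (Event n)) (j : ℕ) (M : Finset (Fin n)) :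
    active (h ++ [.arrive j M]) = insert j (active h) := by
  simp [active, List.foldl_append]

lemma active_depart (h : List (Event n)) (j : ℕ) :
    active (h ++ [.depart j]) = (active h).erase j := by
  simp [active, List.foldl_append]

lemma mem_active_evs {κ : V → Fin n} {ι : E → ℕ} {p : E → Bool → V}
    (hι : Function.Injective ι) (l : List (Step V E)) (j : ℕ) :
    j ∈ active (evs κ ι p l) ↔ ∃ e ∈ alive l, ι e = j := by
  induction l with
  | nil => simp [evs, active, alive]
  | cons s l ih =>
    cases s with
    | pulse v => exact ih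
    | ins e =>
      rw [evs, active_arrive, Finset.mem_insert, ih]
      simp only [alive, Set.mem_insert_iff, exists_eq_or_imp]
      constructor
      · rintro (h | h)
        · exact Or.inl h.symm
        · exact Or.inr h
      · rintro (h | h)
        · exact Or.inl h.symm
        · exact Or.inr h
    | del e =>
      rw [evs, active_depart, Finset.mem_erase, ih]
      simp only [alive, Set.mem_sdiff, Set.mem_singleton_iff]
      constructor
      · rintro ⟨h1, e', h2, h3⟩
        refine ⟨e', ⟨h2, ?_⟩, h3⟩
        rintro rfl
        exact h1 h3.symm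
      · rintro ⟨e', ⟨h1, h2⟩, h3⟩
        refine ⟨?_, e', h1, h3⟩
        intro h4
        exact h2 (hι (h3.trans h4))

lemma arrive_mem_evs {κ : V → Fin n} {ι : E → ℕ} {p : E → Bool → V} (l : List (Step V E))
    (j : ℕ) (M : Finset (Fin n)) : Event.arrive j M ∈ evs κ ι p l ↔
      ∃ e, Step.ins e ∈ l ∧ j = ι e ∧ M = {κ (p e false), κ (p e true)} := by
  induction l with
  | nil => simp [evs]
  | cons s l ih =>
    cases s with
    | pulse v => rw [evs, ih]; simp
    | ins e =>
      rw [evs, List.mem_append, List.mem_singleton, ih]
      simp only [Event.arrive.injEq, List.mem_cons, Step.ins.injEq]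
      constructor
      · rintro (⟨e', h1, h2⟩ | ⟨h1, h2⟩)
        · exact ⟨e', Or.inr h1, h2⟩
        · exact ⟨e, Or.inl rfl, h1, h2⟩
      · rintro ⟨e', h1 | h1, h2, h3⟩
        · subst h1; exact Or.inr ⟨h2, h3⟩
        · exact Or.inl ⟨e', h1, h2, h3⟩
    | del e => rw [evs, List.mem_append, ih]; simp

lemma isSequence_evs {κ : V → Fin n} {ι : E → ℕ} {p : E → Bool → V}
    (hι : Function.Injective ι) (l : List (Step V E)) (hl : Good p l) :
    IsSequence (evs κ ι p l) := by
  induction l with
  | nil => exact .nil
  | cons s l ih =>
    cases s with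
    | pulse v => exact ih hl
    | ins e =>
      refine .arrive _ _ _ (ih hl.1) ?_ ⟨κ (p e false), by simp⟩
      intro M' hM'
      rw [arrive_mem_evs] at hM'
      obtain ⟨e', h1, h2, -⟩ := hM'
      rw [← hι h2] at h1
      exact hl.2.1 h1
    | del e =>
      refine .depart _ _ (ih hl.1) ?_
      rw [mem_active_evs hι]
      exact ⟨e, hl.2, rfl⟩

lemma evs_append (κ : V → Fin n) (ι : E → ℕ) (p : E → Bool → V) (l1 l : List (Step V E)) :
    ∃ τ, evs κ ι p (l1 ++ l) = evs κ ι p l ++ τ := by
  induction l1 with
  | nil => exact ⟨[], by simp⟩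
  | cons s l1 ih =>
    obtain ⟨τ, hτ⟩ := ih
    cases s with
    | pulse v => exact ⟨τ, hτ⟩
    | ins e =>
      refine ⟨τ ++ [.arrive (ι e) {κ (p e false), κ (p e true)}], ?_⟩
      rw [List.cons_append, evs, hτ, List.append_assoc]
    | del e =>
      refine ⟨τ ++ [.depart (ι e)], ?_⟩
      rw [List.cons_append, evs, hτ, List.append_assoc]

lemma take_evs (κ : V → Fin n) (ι : E → ℕ) (p : E → Bool → V) {l L : List (Step V E)}
    (h : l <:+ L) : (evs κ ι p L).take (events l) = evs κ ι p l := by
  obtain ⟨l1, rfl⟩ := h
  obtain ⟨τ, hτ⟩ := evs_append κ ι p l1 l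
  rw [hτ, ← length_evs κ ι p l, List.take_left]

lemma exists_suffix (L : List (Step V E)) (t : ℕ) (ht : t ≤ events L) :
    ∃ l, l <:+ L ∧ events l = t := by
  induction L with
  | nil =>
    refine ⟨[], List.suffix_refl _, ?_⟩
    simp only [events] at ht ⊢
    omega
  | cons s L ih =>
    by_cases h : t ≤ events L
    · obtain ⟨l, hl, hl'⟩ := ih h
      exact ⟨l, hl.trans (List.suffix_cons _ _), hl'⟩
    · refine ⟨s :: L, List.suffix_refl _, ?_⟩
      cases s <;> simp only [events] at ht ⊢ <;> omega

lemma good_suffix {p : E → Bool → V} {l L : List (Step V E)} (h : l <:+ L) (hL : Good p L) :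
    Good p l := by
  obtain ⟨l1, rfl⟩ := h
  induction l1 with
  | nil => simpa using hL
  | cons s l1 ih =>
    cases s with
    | pulse v => exact ih hL
    | ins e => exact ih hL.1
    | del e => exact ih hL.1

open Classical in
lemma optAt_evs_le {κ : V → Fin n} (hκ : Function.Injective κ) {ι : E → ℕ} {p : E → Bool → V}
    (hι : Function.Injective ι) (l : List (Step V E)) (hl : Good p l) :
    1 ∈ {L | ∃ c : Config n, Feasible (evs κ ι p l) c ∧ ∀ i, load (evs κ ι p l) c i ≤ L} := by
  obtain ⟨d, h1, h2, -⟩ := hl.cert
  -- every task goes to its upper end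
  obtain ⟨up, hup⟩ : ∃ up : E → Bool, ∀ e ∈ alive l, d (p e (!(up e))) < d (p e (up e)) := by
    refine ⟨fun e => decide (d (p e false) < d (p e true)), ?_⟩
    intro e he
    by_cases h : d (p e false) < d (p e true)
    · simp [h]
    · have := h1 e he
      simp only [h, decide_false, Bool.not_false]
      omega
  refine ⟨fun j => if h : ∃ e ∈ alive l, ι e = j then some (κ (p h.choose (up h.choose)))
    else none, ?_, ?_⟩
  · intro j hj
    rw [mem_active_evs hι] at hj
    refine ⟨κ (p hj.choose (up hj.choose)), by simp only [dif_pos hj], ?_⟩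
    obtain ⟨k1, k2⟩ := hj.choose_spec
    refine ⟨{κ (p hj.choose false), κ (p hj.choose true)}, ?_, ?_⟩
    · rw [arrive_mem_evs]
      exact ⟨hj.choose, ins_mem_of_alive k1, k2.symm, rfl⟩
    · cases up hj.choose <;> simp
  · intro i
    unfold load
    rw [Finset.card_le_one]
    intro a ha b hb
    rw [Finset.mem_filter, mem_active_evs hι] at ha hb
    obtain ⟨ha1, ha2⟩ := ha
    obtain ⟨hb1, hb2⟩ := hb
    simp only [dif_pos ha1, Option.some.injEq] at ha2
    simp only [dif_pos hb1, Option.some.injEq] at hb2
    obtain ⟨k1, k2⟩ := ha1.choose_spec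
    obtain ⟨m1, m2⟩ := hb1.choose_spec
    have e1 := h2 _ k1 (up ha1.choose) _ m1 (up hb1.choose) (hκ (ha2.trans hb2.symm))
      (hup _ k1) (hup _ m1)
    rw [← k2, ← m2, e1]

lemma opt_evs {κ : V → Fin n} (hκ : Function.Injective κ) {ι : E → ℕ} {p : E → Bool → V}
    (hι : Function.Injective ι) (L : List (Step V E)) (hL : Good p L) (e : E)
    (he : Step.ins e ∈ L) : OPT (evs κ ι p L) = 1 := by
  apply le_antisymm
  · unfold OPT
    apply Finset.sup_le
    intro t ht
    rw [Finset.mem_range, length_evs] at ht
    obtain ⟨l, hl, rfl⟩ := exists_suffix L t (by omega)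
    rw [take_evs κ ι p hl]
    exact Nat.sInf_le (optAt_evs_le hκ hι l (good_suffix hl hL))
  · obtain ⟨l1, l2, rfl⟩ := List.append_of_mem he
    have hsuf : (Step.ins e :: l2) <:+ (l1 ++ Step.ins e :: l2) := ⟨l1, rfl⟩
    have hg := good_suffix hsuf hL
    have h1 : 1 ≤ optAt (evs κ ι p (Step.ins e :: l2)) := by
      apply le_csInf ⟨1, optAt_evs_le hκ hι _ hg⟩
      rintro b ⟨c, hc, hb⟩
      have hact : ι e ∈ active (evs κ ι p (Step.ins e :: l2)) := by
        rw [mem_active_evs hι]
        exact ⟨e, Set.mem_insert _ _, rfl⟩
      obtain ⟨i, hi, -⟩ := hc _ hact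
      refine le_trans ?_ (hb i)
      unfold load
      rw [Nat.one_le_iff_ne_zero, Finset.card_ne_zero]
      exact ⟨ι e, Finset.mem_filter.2 ⟨hact, hi⟩⟩
    refine le_trans h1 ?_
    rw [← take_evs κ ι p hsuf]
    unfold OPT
    apply Finset.le_sup (f := fun t => optAt ((evs κ ι p (l1 ++ Step.ins e :: l2)).take t))
    rw [Finset.mem_range, length_evs, events_append]
    omega

lemma afterMoves_eq {c : Config n} {ms : List (ℕ × Fin n)} {j : ℕ}
    (h : j ∉ ms.map Prod.fst) : afterMoves c ms j = c j := by
  induction ms generalizing c with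
  | nil => rfl
  | cons a ms ih =>
    simp only [List.map_cons, List.mem_cons, not_or] at h
    have := ih (c := Function.update c a.1 (some a.2)) h.2
    unfold afterMoves at this ⊢
    rw [List.foldl_cons, this, Function.update_of_ne h.1]

end Translate

open Classical in
/-- The key bound: every legal schedule of load at most `c` reassigns a lot. -/
lemma schedule_bound {V E : Type} [Fintype V] [Fintype E] {n : ℕ} (κ : V → Fin n)
    (κ' : Fin n → V) (hκ : ∀ v, κ' (κ v) = v) {ι : E → ℕ} {p : E → Bool → V} (hι : Function.Injective ι) (L : List (Step V E)) (hL : Good p L)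
    (hne : ∀ e, p e false ≠ p e true) (r : ℕ → Response n)
    (hr : Legal (evs κ ι p L) r) (c : ℕ) (hc : cost (evs κ ι p L) r ≤ c) :
    ∑ e, alt p e L ≤ reassignments (evs κ ι p L) r + 2 * c * pulses L := by
  set σ := evs κ ι p L with hσ
  -- feasibility and load after all responses
  have hfeas : ∀ l, l <:+ L → Feasible (evs κ ι p l) (confAfter σ r (events l)) ∧
      ∀ i, load (evs κ ι p l) (confAfter σ r (events l)) i ≤ c := by
    intro l hl
    have htake := take_evs κ ι p hl
    rw [← hσ] at htake
    have hle : events l ≤ σ.length := by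
      obtain ⟨l1, hl1⟩ := hl
      rw [hσ, length_evs, ← hl1, events_append]
      omega
    rcases Nat.eq_zero_or_pos (events l) with h0 | hpos
    · have hnil : evs κ ι p l = [] := by
        rw [← List.length_eq_zero_iff, length_evs, h0]
      rw [hnil]
      refine ⟨fun j hj => ?_, fun i => ?_⟩
      · simp [active] at hj
      · simp [load, active]
    · obtain ⟨t, ht⟩ : ∃ t, events l = t + 1 := ⟨events l - 1, by omega⟩
      have htlt : t < σ.length := by omega
      have hconf : conf σ r t (r t).moves.length = confAfter σ r (t + 1) := by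
        unfold conf
        rw [List.take_length]
        rfl
      rw [ht] at htake ⊢
      rw [← htake, ← hconf]
      refine ⟨(hr t htlt).2 _ (le_refl _), fun i => ?_⟩
      refine le_trans ?_ hc
      unfold cost
      refine le_trans ?_ (Finset.le_sup (Finset.mem_range.2 htlt))
      refine le_trans ?_ (Finset.le_sup (b := (r t).moves.length)
        (Finset.mem_range.2 (Nat.lt_succ_self _)))
      exact Finset.le_sup (f := fun i => load (σ.take (t + 1))
        (conf σ r t (r t).moves.length) i) (Finset.mem_univ i)
  -- the induced assignment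
  obtain ⟨f, hf⟩ : ∃ f : ℕ → E → V, ∀ t e, f t e =
      match confAfter σ r t (ι e) with
      | some i => κ' i
      | none => p e false := ⟨fun t e => match confAfter σ r t (ι e) with
      | some i => κ' i
      | none => p e false, fun _ _ => rfl⟩
  have hsome : ∀ l, l <:+ L → ∀ e ∈ alive l,
      confAfter σ r (events l) (ι e) = some (κ (f (events l) e)) ∧
      (f (events l) e = p e false ∨ f (events l) e = p e true) := by
    intro l hl e he
    have hact : ι e ∈ active (evs κ ι p l) := by
      rw [mem_active_evs hι]
      exact ⟨e, he, rfl⟩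
    obtain ⟨i, hi, M, hM, hiM⟩ := (hfeas l hl).1 _ hact
    have hfe : f (events l) e = κ' i := by
      rw [hf, hi]
    rw [arrive_mem_evs] at hM
    obtain ⟨e', -, he1, rfl⟩ := hM
    rw [← hι he1] at hiM
    rw [hfe]
    simp only [Finset.mem_insert, Finset.mem_singleton] at hiM
    rcases hiM with h | h
    · rw [h, hκ]
      exact ⟨by rw [hi, h], Or.inl rfl⟩
    · rw [h, hκ]
      exact ⟨by rw [hi, h], Or.inr rfl⟩
  have hbound := flip_bound hne L f (fun t => (r t).moves.length) c
    (fun l hl e he => (hsome l hl e he).2) ?_ ?_
  · unfold reassignments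
    rw [length_evs]
    exact hbound
  · intro l hl v
    refine le_trans ?_ ((hfeas l hl).2 (κ v))
    unfold load
    apply Finset.card_le_card_of_injOn ι
    · intro e he
      rw [Finset.mem_coe, Finset.mem_filter] at he
      rw [Finset.mem_coe, Finset.mem_filter, mem_active_evs hι]
      refine ⟨⟨e, he.2.1, rfl⟩, ?_⟩
      rw [(hsome l hl e he.2.1).1, he.2.2]
    · exact hι.injOn
  · intro s l hsl hev
    have hl : l <:+ L := (List.suffix_cons s l).trans hsl
    have htake := take_evs κ ι p hl
    have htake' := take_evs κ ι p hsl
    rw [← hσ] at htake htake'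
    rw [hev] at htake'
    have hgood := good_suffix hsl hL
    have hcard : (((r (events l)).moves.map Prod.fst).toFinset).card ≤
        (r (events l)).moves.length := by
      refine le_trans (List.toFinset_card_le _) ?_
      rw [List.length_map]
    refine le_trans ?_ hcard
    apply Finset.card_le_card_of_injOn ι _ hι.injOn
    intro e he
    rw [Finset.mem_coe, Finset.mem_filter] at he
    obtain ⟨-, he1, he2, he3⟩ := he
    rw [Finset.mem_coe, List.mem_toFinset]
    by_contra hcon
    apply he3
    rw [hf, hf]
    have hstep : confAfter σ r (events l + 1) (ι e) = confAfter σ r (events l) (ι e) := by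
      have hdef : confAfter σ r (events l + 1) = afterMoves (afterEvent
        (confAfter σ r (events l)) σ[events l]? (r (events l))) (r (events l)).moves := rfl
      rw [hdef, afterMoves_eq hcon]
      -- the event concerns another task
      have hget : ∀ ev, evs κ ι p (s :: l) = evs κ ι p l ++ [ev] → σ[events l]? = some ev := by
        intro ev hev'
        have h1 : (σ.take (events l + 1))[events l]? = σ[events l]? := by
          rw [List.getElem?_take]; simp
        rw [← h1, htake', hev', List.getElem?_append_right (by rw [length_evs]), length_evs]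
        simp
      cases s with
      | pulse v => simp only [events] at hev; omega
      | ins e' =>
        rw [hget _ rfl]
        have : ι e ≠ ι e' := by
          intro h
          have h' := hι h
          subst h'
          exact hgood.2.1 (ins_mem_of_alive he1)
        simp [afterEvent, this]
      | del e' =>
        rw [hget _ rfl]
        have : ι e ≠ ι e' := by
          intro h
          have h' := hι h
          subst h'
          exact he2.2 rfl
        simp [afterEvent, this]
    rw [hstep]

end Pool.Agent.Y633.RA
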