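import Mathlib
import Pool.Agent.Y633.RA.Sys
import Pool.Agent.Y633.RA.Trans

set_option autoImplicit false

/-!
# The trade-off between the competitive ratio and the number of reassignments
-/

namespace Pool.Agent.Y633.RA

open Pool.Agent.Helper995.Reassign
open Filter

/-- The trade-off for given numbers of machines. -/
theorem tradeoff (c M m n : ℕ) (hm : 1 ≤ m) (hn : tow M (2 * m) ≤ n) :
    ∃ σ : List (Event n), σ ≠ [] ∧ IsSequence σ ∧ OPT σ = 1 ∧
      (∀ j M', Event.arrive j M' ∈ σ → M'.card = 2) ∧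
      ∀ r : ℕ → Response n, Legal σ r → cost σ r ≤ c →
        M * m * σ.length ≤ 2 * m * reassignments σ r + 4 * c * M * σ.length := by
  obtain ⟨V, E, iV, iE, p, L, q, hq, hV, hE, hp, hev, hg, hin, halt, hT⟩ :=
    exists_system' m hm M
  have hne : ∀ e, p e false ≠ p e true := fun e => hg.ne (hin e)
  have hEpos : 0 < Fintype.card E := by rw [hE]; positivity
  obtain ⟨e0⟩ : Nonempty E := Fintype.card_pos_iff.1 hEpos
  have : Nonempty V := ⟨p e0 false⟩
  have hle : Fintype.card V ≤ n := by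
    rw [hV]
    have h1 : 2 * q ≤ 2 * (m * q) := by
      have : 1 * q ≤ m * q := Nat.mul_le_mul_right q hm
      omega
    omega
  obtain ⟨κ, hκ⟩ : ∃ κ : V → Fin n, Function.Injective κ := by
    refine ⟨fun v => Fin.castLE hle (Fintype.equivFin V v), ?_⟩
    intro a b h
    exact (Fintype.equivFin V).injective (Fin.castLE_injective hle h)
  let ι : E → ℕ := fun e => (Fintype.equivFin E e : ℕ)
  have hι : Function.Injective ι := fun a b h => (Fintype.equivFin E).injective (Fin.ext h)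
  have hlen : (evs κ ι p L).length = 2 * m * q := by rw [length_evs, hev]
  refine ⟨evs κ ι p L, ?_, isSequence_evs hι L hg, opt_evs hκ hι L hg e0 (hin e0), ?_, ?_⟩
  · intro h
    rw [h, List.length_nil] at hlen
    have : 0 < 2 * m * q := by positivity
    omega
  · intro j M' hM
    rw [arrive_mem_evs] at hM
    obtain ⟨e, -, -, rfl⟩ := hM
    rw [Finset.card_pair]
    intro h
    exact hne e (hκ h)
  · intro r hr hcost
    have hb := schedule_bound κ (Function.invFun κ) (Function.leftInverse_invFun hκ) hι L hg hne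
      r hr c hcost
    have h1 : Fintype.card E * M ≤ ∑ e, alt p e L := by
      calc Fintype.card E * M = ∑ _e : E, M := by simp
        _ ≤ ∑ e, alt p e L := Finset.sum_le_sum fun e _ => halt e
    rw [hE] at h1
    rw [hp] at hb
    rw [hlen]
    have h3 := h1.trans hb
    calc M * m * (2 * m * q) = 2 * m * (m * q * M) := by ring
      _ ≤ 2 * m * (reassignments (evs κ ι p L) r + 2 * c * (2 * M * q)) :=
        Nat.mul_le_mul_left _ h3
      _ = 2 * m * reassignments (evs κ ι p L) r + 4 * c * M * (2 * m * q) := by ring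

/-- With at most `C` reassignments per event and load at most `c` the number of machines is
less than a tower of height `2 C + 1`. -/
theorem tradeoff_nat (c C n : ℕ) (hn : tow (2 * C + 1) (8 * c * (2 * C + 1) + 2) ≤ n) :
    ∃ σ : List (Event n), σ ≠ [] ∧ IsSequence σ ∧ OPT σ = 1 ∧
      (∀ j M', Event.arrive j M' ∈ σ → M'.card = 2) ∧
      ∀ r : ℕ → Response n, Legal σ r → cost σ r ≤ c →
        C * σ.length < reassignments σ r := by
  obtain ⟨σ, h0, h1, h2, h3, h4⟩ := tradeoff c (2 * C + 1) (4 * c * (2 * C + 1) + 1) n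
    (by omega) (by
      have e : 2 * (4 * c * (2 * C + 1) + 1) = 8 * c * (2 * C + 1) + 2 := by ring
      rw [e]
      exact hn)
  refine ⟨σ, h0, h1, h2, h3, ?_⟩
  intro r hr hc
  have h5 := h4 r hr hc
  have hpos : 0 < σ.length := List.length_pos_iff.2 h0
  by_contra hcon
  push Not at hcon
  obtain ⟨m, hm⟩ : ∃ m, m = 4 * c * (2 * C + 1) + 1 := ⟨_, rfl⟩
  rw [← hm] at h5
  have h6 : 2 * m * reassignments σ r ≤ 2 * m * (C * σ.length) := Nat.mul_le_mul_left _ hcon
  have h7 : (2 * C + 1) * m * σ.length = 2 * m * (C * σ.length) + m * σ.length := by ring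
  have h8 : m * σ.length = 4 * c * (2 * C + 1) * σ.length + σ.length := by rw [hm]; ring
  omega

/-! ### Iterated logarithms -/

lemma tendsto_iter_log (k : ℕ) : Tendsto (fun x : ℝ => Real.log^[k] x) atTop atTop := by
  induction k with
  | zero => exact tendsto_id
  | succ k ih =>
    have h := ih.comp Real.tendsto_log_atTop
    exact h

lemma tow_le_of_le_log (k : ℕ) : ∀ᶠ x : ℝ in atTop, ∀ y : ℕ, (y : ℝ) ≤ Real.log^[k] x →
    (tow k y : ℝ) ≤ x := by
  induction k with
  | zero => exact Eventually.of_forall fun x y h => h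
  | succ k ih =>
    have h1 := Real.tendsto_log_atTop.eventually ih
    filter_upwards [h1, eventually_gt_atTop (0 : ℝ)] with x hx hx0 y hy
    have h2 := hx y hy
    show ((2 ^ tow k y : ℕ) : ℝ) ≤ x
    push_cast
    calc (2 : ℝ) ^ tow k y = Real.exp (Real.log 2 * (tow k y : ℝ)) := by
          rw [Real.exp_mul, Real.exp_log (by norm_num), Real.rpow_natCast]
      _ ≤ Real.exp (Real.log x) := by
          apply Real.exp_le_exp.2
          have h3 : Real.log 2 ≤ 1 := by
            have := Real.log_two_lt_d9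
            linarith
          have h4 : (0 : ℝ) ≤ (tow k y : ℝ) := Nat.cast_nonneg _
          calc Real.log 2 * (tow k y : ℝ) ≤ 1 * (tow k y : ℝ) :=
                mul_le_mul_of_nonneg_right h3 h4
            _ = (tow k y : ℝ) := one_mul _
            _ ≤ Real.log x := h2
      _ = x := Real.exp_log hx0

/-- With at most `C` reassignments per event (`C` real) the competitive ratio is at least a
constant times the `(⌊2C⌋ + 1)`-fold iterated logarithm of the number of machines. -/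
theorem tradeoff_log (C : ℝ) (hC : 0 ≤ C) : ∃ κ : ℝ, 0 < κ ∧ ∃ n₀ : ℕ, ∀ n : ℕ, n₀ ≤ n →
    ∀ c : ℝ, c < κ * Real.log^[⌊2 * C⌋₊ + 1] n →
      ∃ σ : List (Event n), IsSequence σ ∧ OPT σ = 1 ∧
        (∀ j M', Event.arrive j M' ∈ σ → M'.card = 2) ∧
        ∀ r : ℕ → Response n, Legal σ r → (cost σ r : ℝ) ≤ c →
          C * (σ.length : ℝ) < (reassignments σ r : ℝ) := by
  obtain ⟨M, hM⟩ : ∃ M, M = ⌊2 * C⌋₊ + 1 := ⟨_, rfl⟩
  obtain ⟨δ, hδ⟩ : ∃ δ : ℝ, δ = M - 2 * C := ⟨_, rfl⟩
  have hδ0 : 0 < δ := by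
    have h1 := Nat.lt_floor_add_one (2 * C)
    rw [hδ, hM]
    push_cast
    linarith
  have hM0 : (0 : ℝ) < M := by rw [hM]; positivity
  refine ⟨δ / (12 * M), by positivity, ?_⟩
  rw [← hM]
  have hev := (tendsto_natCast_atTop_atTop (R := ℝ)).eventually
    ((tow_le_of_le_log M).and ((tendsto_iter_log M).eventually_ge_atTop 6))
  obtain ⟨n₀, hn₀⟩ := eventually_atTop.1 hev
  refine ⟨n₀, ?_⟩
  intro n hn c hc
  obtain ⟨h1, h2⟩ := hn₀ n hn
  obtain ⟨x, hx⟩ : ∃ x : ℝ, x = Real.log^[M] (n : ℝ) := ⟨_, rfl⟩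
  rw [← hx] at h1 h2 hc
  obtain ⟨m, hm⟩ : ∃ m, m = ⌊x / 2⌋₊ := ⟨_, rfl⟩
  have hm1 : (m : ℝ) ≤ x / 2 := by rw [hm]; exact Nat.floor_le (by linarith)
  have hm2 : x / 2 < m + 1 := by rw [hm]; exact Nat.lt_floor_add_one _
  have hm3 : x / 3 ≤ m := by linarith
  have hm4 : 1 ≤ m := by
    have : (0 : ℝ) < m := by linarith
    exact_mod_cast this
  obtain ⟨σ, g0, g1, g2, g3, g4⟩ := tradeoff ⌊c⌋₊ M m n hm4 (by
    have := h1 (2 * m) (by push_cast; linarith)
    exact_mod_cast this)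
  refine ⟨σ, g1, g2, g3, ?_⟩
  intro r hr hcost
  have hc0 : 0 ≤ c := le_trans (Nat.cast_nonneg _) hcost
  have g5 := g4 r hr (Nat.le_floor hcost)
  have hpos : 0 < σ.length := List.length_pos_iff.2 g0
  have hposR : (0 : ℝ) < σ.length := by exact_mod_cast hpos
  have g6 : (M : ℝ) * m * σ.length ≤ 2 * m * reassignments σ r + 4 * ⌊c⌋₊ * M * σ.length := by
    exact_mod_cast g5
  have hfl : (⌊c⌋₊ : ℝ) ≤ c := Nat.floor_le hc0
  have hmR : (0 : ℝ) < m := by exact_mod_cast hm4
  -- `4 c M < m δ`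
  have hkey : 4 * c * M < m * δ := by
    have e1 : 4 * c * M < 4 * (δ / (12 * M) * x) * M := by
      apply mul_lt_mul_of_pos_right _ hM0
      linarith
    have e2 : 4 * (δ / (12 * M) * x) * M = x / 3 * δ := by
      field_simp
      ring
    rw [e2] at e1
    exact e1.trans_le (mul_le_mul_of_nonneg_right hm3 hδ0.le)
  have g7 : (M : ℝ) * m * σ.length ≤ 2 * m * reassignments σ r + 4 * c * M * σ.length := by
    refine g6.trans ?_
    have : 4 * (⌊c⌋₊ : ℝ) * M * σ.length ≤ 4 * c * M * σ.length := by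
      apply mul_le_mul_of_nonneg_right _ hposR.le
      apply mul_le_mul_of_nonneg_right _ hM0.le
      linarith
    linarith
  have g8 : 4 * c * M * σ.length < m * δ * σ.length := mul_lt_mul_of_pos_right hkey hposR
  have g9 : 2 * m * (C * σ.length) < 2 * m * (reassignments σ r : ℝ) := by
    have e1 : (m : ℝ) * δ * σ.length = M * m * σ.length - 2 * m * (C * σ.length) := by
      rw [hδ]; ring
    linarith
  exact lt_of_mul_lt_mul_left g9 (by positivity)

/-- The form for online algorithms. -/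
theorem online_log (C : ℝ) (hC : 0 ≤ C) : ∃ κ : ℝ, 0 < κ ∧
    ∀ (A : OnlineAlgorithm) (c : ℕ → ℝ), (∀ (n : ℕ) (σ : List (Event n)), IsSequence σ →
      Legal σ (A.run σ) ∧ (cost σ (A.run σ) : ℝ) ≤ c n * (OPT σ : ℝ) ∧
        (reassignments σ (A.run σ) : ℝ) ≤ C * (σ.length : ℝ)) →
      ∀ᶠ n : ℕ in atTop, κ * Real.log^[⌊2 * C⌋₊ + 1] n ≤ c n := by
  obtain ⟨κ, hκ, n₀, h⟩ := tradeoff_log C hC
  refine ⟨κ, hκ, ?_⟩
  intro A c hA
  filter_upwards [eventually_ge_atTop n₀] with n hn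
  by_contra hcon
  push Not at hcon
  obtain ⟨σ, h1, h2, -, h3⟩ := h n hn (c n) hcon
  obtain ⟨g1, g2, g3⟩ := hA n σ h1
  rw [h2, Nat.cast_one, mul_one] at g2
  exact absurd g3 (not_le.2 (h3 _ g1 g2))

/-- No constants. -/
theorem no_constants (c C : ℝ) : ¬ ∃ A : OnlineAlgorithm, ∀ (n : ℕ) (σ : List (Event n)),
    IsSequence σ → Legal σ (A.run σ) ∧ (cost σ (A.run σ) : ℝ) ≤ c * (OPT σ : ℝ) ∧
      (reassignments σ (A.run σ) : ℝ) ≤ C * (σ.length : ℝ) := by
  rintro ⟨A, hA⟩
  obtain ⟨κ, hκ, h⟩ := online_log (max C 0) (le_max_right _ _)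
  have h1 := h A (fun _ => c) (by
    intro n σ hσ
    obtain ⟨g1, g2, g3⟩ := hA n σ hσ
    refine ⟨g1, g2, g3.trans ?_⟩
    exact mul_le_mul_of_nonneg_right (le_max_left _ _) (Nat.cast_nonneg _))
  have h2 : Tendsto (fun n : ℕ => κ * Real.log^[⌊2 * max C 0⌋₊ + 1] (n : ℝ)) atTop atTop :=
    ((tendsto_iter_log (⌊2 * max C 0⌋₊ + 1)).comp
      (tendsto_natCast_atTop_atTop (R := ℝ))).const_mul_atTop hκ
  obtain ⟨n, hn1, hn2⟩ := (h1.and (h2.eventually_gt_atTop c)).exists
  exact absurd hn1 (not_le.2 hn2)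

end Pool.Agent.Y633.RA
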